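import Mathlib

set_option autoImplicit false

namespace Pool.Agent.Results.MP_0d5a8e_co.NotEdge

def eds : List (Fin 7 × Fin 7) := [(0, 1), (0, 3), (0, 5), (0, 6), (1, 2), (1, 4), (1, 6), (2, 4), (2, 5), (3, 4), (3, 5)]

def G : SimpleGraph (Fin 7) where
  Adj a b := (a, b) ∈ eds ∨ (b, a) ∈ eds
  symm := ⟨fun _ _ h => h.symm⟩
  loopless := ⟨by decide⟩

instance : DecidableRel G.Adj := fun a b => inferInstanceAs (Decidable ((a, b) ∈ eds ∨ (b, a) ∈ eds))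

theorem adj_eq : G.adjMatrix ℝ = !![0, 1, 0, 1, 0, 1, 1; 1, 0, 1, 0, 1, 0, 1; 0, 1, 0, 0, 1, 1, 0; 1, 0, 0, 0, 1, 1, 0; 0, 1, 1, 1, 0, 0, 0; 1, 0, 1, 1, 0, 0, 0; 1, 1, 0, 0, 0, 0, 0] := by
  ext i j
  fin_cases i <;> fin_cases j <;> simp [SimpleGraph.adjMatrix_apply] <;> decide

theorem eqs (x : Fin 7 → ℝ) (m : ℝ) : (G.adjMatrix ℝ).mulVec x = m • x ↔
    (x 1 + x 3 + x 5 + x 6 = m * x 0 ∧ x 0 + x 2 + x 4 + x 6 = m * x 1 ∧ x 1 + x 4 + x 5 = m * x 2 ∧ x 0 + x 4 + x 5 = m * x 3 ∧ x 1 + x 2 + x 3 = m * x 4 ∧ x 0 + x 2 + x 3 = m * x 5 ∧ x 0 + x 1 = m * x 6) := by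
  rw [adj_eq, funext_iff]
  simp [Fin.forall_fin_succ, Matrix.mulVec, dotProduct, Fin.sum_univ_succ, add_assoc]

theorem poly (x : Fin 7 → ℝ) (m : ℝ) (h : (G.adjMatrix ℝ).mulVec x = m • x) (hx : x ≠ 0) :
    m ^ 5 - m ^ 4 - 8 * m ^ 3 + 8 * m = 0 := by
  obtain ⟨h0, h1, h2, h3, h4, h5, h6⟩ := (eqs x m).1 h
  by_contra hc
  apply hx
  funext i
  apply mul_left_cancel₀ hc
  fin_cases i
  · show _ * x 0 = _ * (0 : ℝ)
    linear_combination ((4) * m ^ 2 + (1) * m ^ 3 + (-1) * m ^ 4) * h0 +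
        ((-1) * m ^ 3) * h1 +
        ((-2) * m ^ 1 + (-2) * m ^ 2) * h2 +
        ((2) * m ^ 1 + (-1) * m ^ 3) * h3 +
        ((-2) * m ^ 1 + (-2) * m ^ 2) * h4 +
        ((2) * m ^ 1 + (-1) * m ^ 3) * h5 +
        ((4) * m ^ 1 + (-1) * m ^ 3) * h6
  · show _ * x 1 = _ * (0 : ℝ)
    linear_combination ((-1) * m ^ 3) * h0 +
        ((4) * m ^ 2 + (1) * m ^ 3 + (-1) * m ^ 4) * h1 +
        ((2) * m ^ 1 + (-1) * m ^ 3) * h2 +
        ((-2) * m ^ 1 + (-2) * m ^ 2) * h3 +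
        ((2) * m ^ 1 + (-1) * m ^ 3) * h4 +
        ((-2) * m ^ 1 + (-2) * m ^ 2) * h5 +
        ((4) * m ^ 1 + (-1) * m ^ 3) * h6
  · show _ * x 2 = _ * (0 : ℝ)
    linear_combination ((-2) * m ^ 1 + (-2) * m ^ 2) * h0 +
        ((2) * m ^ 1 + (-1) * m ^ 3) * h1 +
        ((-2) * m ^ 0 + (1) * m ^ 1 + (5) * m ^ 2 + (1) * m ^ 3 + (-1) * m ^ 4) * h2 +
        ((2) * m ^ 0 + (-1) * m ^ 1 + (-2) * m ^ 2) * h3 +
        ((2) * m ^ 0 + (3) * m ^ 1 + (-1) * m ^ 3) * h4 +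
        ((-2) * m ^ 0 + (1) * m ^ 1 + (1) * m ^ 2 + (-1) * m ^ 3) * h5 +
        ((-2) * m ^ 1 + (-1) * m ^ 2) * h6
  · show _ * x 3 = _ * (0 : ℝ)
    linear_combination ((2) * m ^ 1 + (-1) * m ^ 3) * h0 +
        ((-2) * m ^ 1 + (-2) * m ^ 2) * h1 +
        ((2) * m ^ 0 + (-1) * m ^ 1 + (-2) * m ^ 2) * h2 +
        ((-2) * m ^ 0 + (1) * m ^ 1 + (5) * m ^ 2 + (1) * m ^ 3 + (-1) * m ^ 4) * h3 +
        ((-2) * m ^ 0 + (1) * m ^ 1 + (1) * m ^ 2 + (-1) * m ^ 3) * h4 +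
        ((2) * m ^ 0 + (3) * m ^ 1 + (-1) * m ^ 3) * h5 +
        ((-2) * m ^ 1 + (-1) * m ^ 2) * h6
  · show _ * x 4 = _ * (0 : ℝ)
    linear_combination ((-2) * m ^ 1 + (-2) * m ^ 2) * h0 +
        ((2) * m ^ 1 + (-1) * m ^ 3) * h1 +
        ((2) * m ^ 0 + (3) * m ^ 1 + (-1) * m ^ 3) * h2 +
        ((-2) * m ^ 0 + (1) * m ^ 1 + (1) * m ^ 2 + (-1) * m ^ 3) * h3 +
        ((-2) * m ^ 0 + (1) * m ^ 1 + (5) * m ^ 2 + (1) * m ^ 3 + (-1) * m ^ 4) * h4 +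
        ((2) * m ^ 0 + (-1) * m ^ 1 + (-2) * m ^ 2) * h5 +
        ((-2) * m ^ 1 + (-1) * m ^ 2) * h6
  · show _ * x 5 = _ * (0 : ℝ)
    linear_combination ((2) * m ^ 1 + (-1) * m ^ 3) * h0 +
        ((-2) * m ^ 1 + (-2) * m ^ 2) * h1 +
        ((-2) * m ^ 0 + (1) * m ^ 1 + (1) * m ^ 2 + (-1) * m ^ 3) * h2 +
        ((2) * m ^ 0 + (3) * m ^ 1 + (-1) * m ^ 3) * h3 +
        ((2) * m ^ 0 + (-1) * m ^ 1 + (-2) * m ^ 2) * h4 +
        ((-2) * m ^ 0 + (1) * m ^ 1 + (5) * m ^ 2 + (1) * m ^ 3 + (-1) * m ^ 4) * h5 +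
        ((-2) * m ^ 1 + (-1) * m ^ 2) * h6
  · show _ * x 6 = _ * (0 : ℝ)
    linear_combination ((4) * m ^ 1 + (-1) * m ^ 3) * h0 +
        ((4) * m ^ 1 + (-1) * m ^ 3) * h1 +
        ((-2) * m ^ 1 + (-1) * m ^ 2) * h2 +
        ((-2) * m ^ 1 + (-1) * m ^ 2) * h3 +
        ((-2) * m ^ 1 + (-1) * m ^ 2) * h4 +
        ((-2) * m ^ 1 + (-1) * m ^ 2) * h5 +
        ((6) * m ^ 2 + (1) * m ^ 3 + (-1) * m ^ 4) * h6

theorem mem_eig (x : Fin 7 → ℝ) (m : ℝ) :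
    x ∈ Module.End.eigenspace (Matrix.toLin' (G.adjMatrix ℝ)) m ↔
      (G.adjMatrix ℝ).mulVec x = m • x := by
  rw [Module.End.mem_eigenspace_iff, Matrix.toLin'_apply]

def u : Fin 2 → Fin 7 → ℝ := ![![1, -1, -1, 1, -1, 1, 0], ![1, 0, -1, 0, -1, 0, 1]]

theorem hull (x : Fin 2 → ℝ)
    (hx : x ∈ convexHull ℝ (Set.range fun (i : Fin 7) (k : Fin 2) => u k i)) :
    x 0 ≤ 1 ∧ x 1 ≤ 1 ∧ -1 ≤ x 0 ∧ x 1 - x 0 ≤ 1 := by
  refine convexHull_min (t := {x : Fin 2 → ℝ | x 0 ≤ 1 ∧ x 1 ≤ 1 ∧ -1 ≤ x 0 ∧ x 1 - x 0 ≤ 1})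
    ?_ ?_ hx
  · rintro _ ⟨i, rfl⟩
    fin_cases i <;> simp [u]
  · intro a ha b hb s t hs ht hst
    obtain ⟨a1, a2, a3, a4⟩ := ha
    obtain ⟨b1, b2, b3, b4⟩ := hb
    simp only [Set.mem_setOf_eq, Pi.add_apply, Pi.smul_apply, smul_eq_mul]
    refine ⟨by nlinarith, by nlinarith, by nlinarith, by nlinarith⟩

/-- A connected graph with an edge whose endpoints are distinct vertices of the second
eigenpolytope but do not span a face of it. -/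
theorem result : ∃ (n : ℕ) (H : SimpleGraph (Fin n)) (_ : DecidableRel H.Adj) (t₁ t₂ : ℝ) (d : ℕ)
    (b : Fin d → Fin n → ℝ) (i j : Fin n),
    H.Connected ∧
    Module.End.HasEigenvalue (Matrix.toLin' (H.adjMatrix ℝ)) t₁ ∧
    Module.End.HasEigenvalue (Matrix.toLin' (H.adjMatrix ℝ)) t₂ ∧ t₂ < t₁ ∧
    (∀ m, Module.End.HasEigenvalue (Matrix.toLin' (H.adjMatrix ℝ)) m → m = t₁ ∨ m ≤ t₂) ∧
    LinearIndependent ℝ b ∧
    Submodule.span ℝ (Set.range b) = Module.End.eigenspace (Matrix.toLin' (H.adjMatrix ℝ)) t₂ ∧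
    H.Adj i j ∧ (fun k => b k i) ≠ (fun k => b k j) ∧
    (fun k => b k i) ∈ (convexHull ℝ (Set.range fun (a : Fin n) (k : Fin d) => b k a)).extremePoints ℝ ∧
    (fun k => b k j) ∈ (convexHull ℝ (Set.range fun (a : Fin n) (k : Fin d) => b k a)).extremePoints ℝ ∧
    ¬ IsExtreme ℝ (convexHull ℝ (Set.range fun (a : Fin n) (k : Fin d) => b k a))
      (segment ℝ (fun k => b k i) (fun k => b k j)) := by
  have s5 : Real.sqrt 5 * Real.sqrt 5 = 5 := Real.mul_self_sqrt (by norm_num)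
  have s0 : 0 < Real.sqrt 5 := Real.sqrt_pos.2 (by norm_num)
  have hu : ∀ k, u k ∈ Module.End.eigenspace (Matrix.toLin' (G.adjMatrix ℝ)) 1 := by
    intro k
    rw [mem_eig, eqs]
    fin_cases k <;> simp [u]
  refine ⟨7, G, inferInstance, 1 + Real.sqrt 5, 1, 2, u, 0, 1, ?_, ?_, ?_, by linarith, ?_, ?_, ?_,
    by decide, ?_, ⟨subset_convexHull _ _ ⟨0, rfl⟩, ?_⟩, ⟨subset_convexHull _ _ ⟨1, rfl⟩, ?_⟩, ?_⟩
  · decide +kernel
  · refine Module.End.hasEigenvalue_of_hasEigenvector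
      (x := ![8 + 4 * Real.sqrt 5, 8 + 4 * Real.sqrt 5, 7 + 3 * Real.sqrt 5, 7 + 3 * Real.sqrt 5,
        7 + 3 * Real.sqrt 5, 7 + 3 * Real.sqrt 5, 6 + 2 * Real.sqrt 5]) ⟨?_, ?_⟩
    · rw [mem_eig, eqs]
      simp only [Matrix.cons_val_zero, Matrix.cons_val_one, Matrix.cons_val]
      refine ⟨?_, ?_, ?_, ?_, ?_, ?_, ?_⟩ <;> nlinarith
    · intro h
      have := congrFun h 0
      simp only [Matrix.cons_val_zero, Pi.zero_apply] at this
      linarith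
  · refine Module.End.hasEigenvalue_of_hasEigenvector (x := u 0) ⟨hu 0, ?_⟩
    intro h
    have := congrFun h 0
    simp [u] at this
  · intro m hm
    obtain ⟨x, hx, hx0⟩ := hm.exists_hasEigenvector
    have hp := poly x m ((mem_eig x m).1 hx) hx0
    by_contra hc
    push Not at hc
    have e : m * (m - 1) * (m + 2) * (m - (1 + Real.sqrt 5)) * (m - 1 + Real.sqrt 5) = 0 := by
      linear_combination hp - m * (m - 1) * (m + 2) * s5
    have h1 : 0 < m * (m - 1) * (m + 2) := by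
      have := hc.2
      apply mul_pos (mul_pos _ _) <;> linarith
    have h2 : 0 < m - 1 + Real.sqrt 5 := by linarith [hc.2]
    exact (mul_ne_zero (mul_ne_zero h1.ne' (sub_ne_zero.2 hc.1)) h2.ne') e
  · rw [Fintype.linearIndependent_iff]
    intro g hg
    have h6 := congrFun hg 6
    have h3 := congrFun hg 3
    simp [u, Fin.sum_univ_two] at h6 h3
    intro k
    fin_cases k
    · exact h3
    · exact h6
  · apply le_antisymm
    · rw [Submodule.span_le]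
      rintro _ ⟨k, rfl⟩
      exact hu k
    · intro x hx
      rw [mem_eig, eqs] at hx
      obtain ⟨h0, h1, h2, h3, h4, h5, h6⟩ := hx
      rw [Submodule.mem_span_range_iff_exists_fun]
      refine ⟨![x 5, x 6], ?_⟩
      funext i
      fin_cases i <;> simp [u, Fin.sum_univ_two] <;> linarith
  · intro h
    have := congrFun h 1
    simp [u] at this
  · rintro a ha b hb ⟨s, t, hs, ht, hst, h⟩
    obtain ⟨a1, a2, -, -⟩ := hull a ha
    obtain ⟨b1, b2, -, -⟩ := hull b hb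
    have e0 := congrFun h 0
    have e1 := congrFun h 1
    simp [u] at e0 e1
    funext k
    fin_cases k <;> simp [u] <;> nlinarith
  · rintro a ha b hb ⟨s, t, hs, ht, hst, h⟩
    obtain ⟨-, -, a1, a2⟩ := hull a ha
    obtain ⟨-, -, b1, b2⟩ := hull b hb
    have e0 := congrFun h 0
    have e1 := congrFun h 1
    simp [u] at e0 e1
    have f0 : a 0 = -1 := by nlinarith
    have f1 : a 1 - a 0 = 1 := by nlinarith
    funext k
    fin_cases k <;> simp [u] <;> linarith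
  · intro h
    have := h.left_mem_of_mem_openSegment (x := fun k => u k 6) (y := fun k => u k 3)
      (subset_convexHull _ _ ⟨6, rfl⟩) (subset_convexHull _ _ ⟨3, rfl⟩)
      (z := ![1 / 3, 2 / 3]) ⟨2 / 3, 1 / 3, by norm_num, by norm_num, by norm_num, by
        funext k; fin_cases k <;> simp [u] <;> norm_num⟩
      ⟨2 / 3, 1 / 3, by norm_num, by norm_num, by norm_num, by
        funext k; fin_cases k <;> simp [u]⟩
    obtain ⟨s, t, hs, ht, hst, h⟩ := this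
    have e0 := congrFun h 0
    have e1 := congrFun h 1
    simp [u] at e0 e1
    linarith

end Pool.Agent.Results.MP_0d5a8e_co.NotEdge
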